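import Pool.Agent.Helper70.TG.OPT

/-!
MP_22c541_al, Q2 for all large `n`: for every large `n` there is an irreducible representation `V` of `S_n`, isomorphic to its
product with the sign, such that the exterior square of `V` contains exactly the irreducible representations other than
`[n]`, `[n-1,1]`, `[n-2,2]` and except possibly the sign. The characters of these three are `1`, `f - 1` and `p - f`, where `f` counts
the fixed points and `p` the invariant subsets with two elements.
-/

set_option autoImplicit false

open Equiv CategoryTheory

namespace Pool.Agent.Results.MP_22c541_al.AOptimal

/-- For all large `n` some irreducible character `χ = sgn χ` of `S_n` is A-optimal: an irreducible character other than the sign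
does not occur in the exterior square of `χ` if and only if it is `[n]`, `[n-1,1]` or `[n-2,2]`. -/
theorem result : ∃ N : ℕ, ∀ n ≥ N,
    ∃ V : FDRep ℂ (Perm (Fin n)), Simple V ∧
      (∀ g : Perm (Fin n), V.character g = ((Perm.sign g : ℤ) : ℂ) * V.character g) ∧
      ∀ W : FDRep ℂ (Perm (Fin n)), Simple W →
        W.character ≠ (fun g : Perm (Fin n) => ((Perm.sign g : ℤ) : ℂ)) →
          ((∑ g : Perm (Fin n), ((V.character g ^ 2 - V.character (g ^ 2)) / 2) * W.character g⁻¹) = 0 ↔
            ((W.character = fun _ => 1) ∨
              (W.character = fun g : Perm (Fin n) =>
                ((Finset.univ.filter (fun i : Fin n => g i = i)).card : ℂ) - 1) ∨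
              (W.character = fun g : Perm (Fin n) =>
                ((((Finset.univ : Finset (Fin n)).powersetCard 2).filter (fun s => s.image g = s)).card : ℂ) -
                  ((Finset.univ.filter (fun i : Fin n => g i = i)).card : ℂ)))) :=
  Pool.Agent.Helper70.TG.a_optimal

end Pool.Agent.Results.MP_22c541_al.AOptimal
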