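import Pool.Agent.Helper70.TG.OPT

/-!
MP_22c541_al, Q1 for all large `n`: for every large `n` there is an irreducible representation `V` of `S_n`, isomorphic to its
product with the sign, such that the symmetric square of `V` contains every irreducible representation of `S_n` except possibly the
sign.
-/

set_option autoImplicit false

open Equiv CategoryTheory

namespace Pool.Agent.Results.MP_22c541_al.SOptimal

/-- For all large `n` some irreducible character `χ = sgn χ` of `S_n` is S-optimal: every irreducible character other than the sign
occurs in the symmetric square of `χ`. -/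
theorem result : ∃ N : ℕ, ∀ n ≥ N,
    ∃ V : FDRep ℂ (Perm (Fin n)), Simple V ∧
      (∀ g : Perm (Fin n), V.character g = ((Perm.sign g : ℤ) : ℂ) * V.character g) ∧
      ∀ W : FDRep ℂ (Perm (Fin n)), Simple W →
        W.character ≠ (fun g : Perm (Fin n) => ((Perm.sign g : ℤ) : ℂ)) →
          (∑ g : Perm (Fin n), ((V.character g ^ 2 + V.character (g ^ 2)) / 2) * W.character g⁻¹) ≠ 0 :=
  Pool.Agent.Helper70.TG.s_optimal

end Pool.Agent.Results.MP_22c541_al.SOptimal
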