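import Pool.Agent.Helper51.TY.Y3

/-!
MP_22c541_al: for a typical irreducible representation `V` of `S_n` (all but `η` of the Plancherel measure, `n ≥ N(ε, η)`) the
symmetric square of `V` contains every irreducible representation `W` of `S_n` on which no nonzero vector is multiplied by the sign by
the permutations of the first `(1 - ε) n` points (and every `W` of dimension at least `(n!)^ε`), and the exterior square of `V`
contains all of these `W` without nonzero vectors fixed by `S_2 × S_{n-2}`.
-/

set_option autoImplicit false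

open Module Equiv CategoryTheory

namespace Pool.Agent.Results.MP_22c541_al.TypicalSquares

/-- Pairwise non-isomorphic irreducible representations `V_j` of `S_n` whose symmetric or exterior square misses one of the
irreducible representations without a long first column (the exterior square: except those of the partitions `(n)`, `(n-1,1)`,
`(n-2,2)`) have `∑ (dim V_j)² ≤ η n!`, for `n ≥ N(ε, η)`. -/
theorem result (ε η : ℝ) (hε : 0 < ε) (hε1 : ε < 1) (hη : 0 < η) : ∃ N : ℕ, ∀ n ≥ N,
    ∀ (k : ℕ) (V : Fin k → FDRep ℂ (Perm (Fin n))), (∀ j, Simple (V j)) →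
      (∀ i j, Nonempty (V i ≅ V j) → i = j) →
      (∀ j, ¬ ∀ W : FDRep ℂ (Perm (Fin n)), Simple W →
        ((∀ w : W, w ≠ 0 → ∃ g : Perm (Fin n), (∀ i : Fin n, (1 - ε) * n ≤ (i : ℕ) → g i = i) ∧
            W.ρ g w ≠ ((Perm.sign g : ℤ) : ℂ) • w) ∨
          (n.factorial : ℝ) ^ ε ≤ finrank ℂ W) →
        (∑ g : Perm (Fin n), (((V j).character g ^ 2 + (V j).character (g ^ 2)) / 2) *
          W.character g⁻¹) ≠ 0 ∧
        ((∀ w : W, w ≠ 0 → ∃ g : Perm (Fin n), (∀ i : Fin n, (i : ℕ) < 2 ↔ (g i : ℕ) < 2) ∧ W.ρ g w ≠ w) →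
          (∑ g : Perm (Fin n), (((V j).character g ^ 2 - (V j).character (g ^ 2)) / 2) *
            W.character g⁻¹) ≠ 0)) →
      ∑ j, (finrank ℂ (V j) : ℝ) ^ 2 ≤ η * n.factorial :=
  Pool.Agent.Helper51.TY.typical ε η hε hε1 hη

end Pool.Agent.Results.MP_22c541_al.TypicalSquares
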